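import Pool.Agent.N105.LT.Defs
import Pool.Agent.N505.LG.I1
import Pool.Agent.N793.LG.I3
import Pool.Agent.N627.LG.I4
import Pool.Agent.N281.LG.I2
import Pool.Agent.N919.LG.KI
import Pool.Agent.N539.LG.Poly
import Pool.Agent.N79.LG.Err
import Pool.Agent.N348.LG.Dia
import Pool.Agent.N409.LG.Pt
import Pool.Agent.N667.LG.Alg
import Pool.Agent.N277.LG.DER
import Pool.Agent.N187.LG.Main
import Pool.Agent.N971.LG.FI
import Pool.Agent.N935.LG.Fi1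
import Pool.Agent.N105.LT.Core2
import Pool.Agent.Helper717.LT.P_core
import Pool.Agent.Helper717.LT.P_final_thm
import Pool.Agent.Helper717.LT.P_gram_complex
import Pool.Agent.Helper717.LT.P_slice_sys
import Pool.Agent.Helper717.LT.P_pd_basic

set_option autoImplicit false

open MeasureTheory Set Filter Topology Real
open scoped Matrix

namespace Pool.Agent.N105.LT.Asm
open LTd Pool.Agent.N105.LT

theorem ki_all {n : ℕ} (X : Mat n) (hX : PSD X) (a : Fin n → ℝ) :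
    4 * ∑ i, a i ^ 2 * (X * X * X) i i + π ^ 2 / 3 * (X * X * X).trace ≤
      4 * ∑ i, ∑ j, kk (a i - a j) * (cosh (a i) * cosh (a j)) * (X i j * (X * X) i j) :=
  Pool.Agent.N919.LG.ki Pool.Agent.N505.LG.I1.i1 Pool.Agent.N793.LG.i3 (Pool.Agent.N281.LG.i2 Pool.Agent.N627.LG.i4) X hX a

theorem err' {n : ℕ} (X : Mat n) (hX : PSD X) (i j : Fin n) :
    |X i j * (X * X) i j| ≤ n ^ 3 * (X * X * X).trace ∧ 0 ≤ (X * X) i i ∧
      (X * X * X) i i ≤ (X * X * X).trace := by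
  obtain ⟨h1, _, h3⟩ := Pool.Agent.N79.LG.err X hX i j
  refine ⟨h1, ?_, h3⟩
  rw [Matrix.mul_apply]
  refine Finset.sum_nonneg fun k _ => ?_
  rw [hX.1 k i]
  exact mul_self_nonneg _

theorem pt_all (n : ℕ) (θ : ℝ) (h0 : 0 < θ) (h1 : θ < 1) (δ : ℝ) (hδ : 0 < δ) :
    ∃ (K : ℕ) (c : ℕ → ℝ), ∀ (B R : Mat n), (∀ i j, B i j = B j i) →
      PSD ((1 / 2 : ℝ) • 1 + B) → PSD ((1 / 2 : ℝ) • 1 - B) → PSD R →
      (R * DPol K c B R * R).trace + (Pol K c B * Pol K c B * (R * R * R)).trace +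
        (θ ^ 2 * (π ^ 2 / 3) - δ) * (R * R * R).trace ≤ 0 :=
  Pool.Agent.N409.LG.pt Pool.Agent.N539.LG.Poly.poly (Pool.Agent.N348.LG.Dia.dia ki_all err') n θ h0 h1 δ hδ

theorem main_all {n : ℕ} {R S Q : ℝ → Mat n} (h : Sys R S Q) (hT : PSD (1 - Tot R))
    (f : ℝ → ℝ) (hf : Integrable f) (hF : ∀ x, FB (R x) (S x) (f x)) :
    π ^ 2 / 3 * ∫ x, (R x * R x * R x).trace ≤ (∫ x, (Q x).trace) + 3 * ∫ x, f x :=
  Pool.Agent.N187.LG.Main.main pt_all Pool.Agent.N667.LG.alg Pool.Agent.N277.LG.der h hT f hf hF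

/-- The one-dimensional inequalities between the two constants. -/
theorem main_th {θ : ℝ} (h0 : 0 ≤ θ) (h1 : θ ≤ 1) {n : ℕ} {R S Q : ℝ → Mat n} (h : Sys R S Q)
    (hT : PSD (1 - Tot R)) (f : ℝ → ℝ) (hf : Integrable f) (hF : ∀ x, FB (R x) (S x) (f x)) :
    π ^ 2 / 12 * (3 + θ) * ∫ x, (R x * R x * R x).trace ≤
      (∫ x, (Q x).trace) + 3 * θ * ∫ x, f x := by
  have e1 := main_all h hT f hf hF
  have e2 := blockA h hT
  have e3 := mul_le_mul_of_nonneg_left e1 h0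
  have e4 := mul_le_mul_of_nonneg_left e2 (sub_nonneg.2 h1)
  nlinarith [e3, e4]

/-- The inequality for real families with Gram matrix at most one. -/
theorem real_all {θ : ℝ} (h0 : 0 ≤ θ) (h1 : θ ≤ 1) (m n : ℕ) (w : Fin n → (Fin (m + 1) → ℝ) → ℝ) (hw : ∀ i, ContDiff ℝ 1 (w i))
    (hc : ∀ i, HasCompactSupport (w i))
    (hG : ∀ v : Fin n → ℝ, ∫ x, (∑ i, v i * w i x) ^ 2 ≤ ∑ i, v i ^ 2) :
    ((3 + θ) / 4) ^ (1 / ((m : ℝ) + 1)) * Kcl (m + 1) *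
        ∫ x, (∑ i, w i x ^ 2) ^ (1 + 2 / ((m + 1 : ℕ) : ℝ)) ≤
      (∫ x, ∑ k, ∑ i, pd k (w i) x ^ 2) + 3 * θ * ∫ x, Fi (RS w x) (SS w x) := by
  have hS := slice_sys w hw hc
  obtain ⟨k1, k2, k3, k4⟩ := Pool.Agent.N971.LG.fi hS
  have h := Core2.core (a := π ^ 2 / 12 * (3 + θ)) (b := 3 * θ) (by positivity)
    (fun h hT f hf hF => main_th h0 h1 h hT f hf hF) m n w hw hc hG _ k4 k1
  rw [Core2.cst m h0, final_thm_pp] at h
  exact h

theorem fi_all {n : ℕ} {R S Q : ℝ → Mat n} (h : Sys R S Q) :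
    (∀ x, FB (R x) (S x) (Fi (R x) (S x))) ∧ (∀ x, 0 ≤ Fi (R x) (S x)) ∧
    (∀ x, Fi (R x) (S x) ≤ (Q x).trace) ∧ Integrable (fun x => Fi (R x) (S x)) := Pool.Agent.N971.LG.fi h

theorem fi1_all {n : ℕ} (u v : Fin n → ℝ) :
    Fi (Matrix.of fun i j => u i * u j : Mat n) (Matrix.of fun i j => v i * u j : Mat n) =
      (∑ i, u i * v i) ^ 2 / ∑ i, u i ^ 2 := Pool.Agent.N935.LG.fi1 u v

end Pool.Agent.N105.LT.Asm
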