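import Pool.Agent.N105.LT.Defs
import Pool.Agent.Helper717.LT.P_core
import Pool.Agent.Helper717.LT.P_final_thm
import Pool.Agent.Helper717.LT.P_gram_complex
import Pool.Agent.Helper717.LT.P_slice_sys
import Pool.Agent.Helper717.LT.P_pd_basic

/-! Complex families of test functions: real and imaginary parts (helper105). -/

set_option autoImplicit false

open MeasureTheory Set Filter Topology Real
open scoped Matrix

namespace Pool.Agent.N105.LT.Cx
open LTd Pool.Agent.N105.LT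

/-- The real and the imaginary parts of a family. -/
noncomputable def ri {N d : ℕ} (u : Fin N → (Fin d → ℝ) → ℂ) : Fin (N + N) → (Fin d → ℝ) → ℝ :=
  Fin.append (fun i x => (u i x).re) (fun i x => (u i x).im)

lemma ri_l {N d : ℕ} (u : Fin N → (Fin d → ℝ) → ℂ) (i : Fin N) :
    ri u (Fin.castAdd N i) = fun x => (u i x).re := Fin.append_left _ _ i

lemma ri_r {N d : ℕ} (u : Fin N → (Fin d → ℝ) → ℂ) (i : Fin N) :
    ri u (Fin.natAdd N i) = fun x => (u i x).im := Fin.append_right _ _ i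

lemma ri_contDiff {N d : ℕ} {u : Fin N → (Fin d → ℝ) → ℂ} (hu : ∀ i, ContDiff ℝ 1 (u i)) :
    ∀ i, ContDiff ℝ 1 (ri u i) := by
  intro i
  refine Fin.addCases (fun i => ?_) (fun i => ?_) i
  · rw [ri_l]; exact Complex.reCLM.contDiff.comp (hu i)
  · rw [ri_r]; exact Complex.imCLM.contDiff.comp (hu i)

lemma ri_supp {N d : ℕ} {u : Fin N → (Fin d → ℝ) → ℂ} (hc : ∀ i, HasCompactSupport (u i)) :
    ∀ i, HasCompactSupport (ri u i) := by
  intro i
  refine Fin.addCases (fun i => ?_) (fun i => ?_) i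
  · rw [ri_l]; exact (hc i).comp_left (g := Complex.re) Complex.zero_re
  · rw [ri_r]; exact (hc i).comp_left (g := Complex.im) Complex.zero_im

lemma pd_re {d : ℕ} {f : (Fin d → ℝ) → ℂ} (hf : ContDiff ℝ 1 f) (k : Fin d) (x : Fin d → ℝ) :
    pd k (fun x => (f x).re) x = (fderiv ℝ f x (Pi.single k 1)).re := by
  have h : HasFDerivAt (fun x => (f x).re) (Complex.reCLM.comp (fderiv ℝ f x)) x :=
    Complex.reCLM.hasFDerivAt.comp x ((hf.differentiable (by norm_num)) x).hasFDerivAt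
  rw [pd, h.fderiv]; rfl

lemma pd_im {d : ℕ} {f : (Fin d → ℝ) → ℂ} (hf : ContDiff ℝ 1 f) (k : Fin d) (x : Fin d → ℝ) :
    pd k (fun x => (f x).im) x = (fderiv ℝ f x (Pi.single k 1)).im := by
  have h : HasFDerivAt (fun x => (f x).im) (Complex.imCLM.comp (fderiv ℝ f x)) x :=
    Complex.imCLM.hasFDerivAt.comp x ((hf.differentiable (by norm_num)) x).hasFDerivAt
  rw [pd, h.fderiv]; rfl

lemma hsq (z : ℂ) : ‖z‖ ^ 2 = z.re ^ 2 + z.im ^ 2 := by
  rw [Complex.sq_norm, Complex.normSq_apply]; ring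

lemma ri_sq {N d : ℕ} (u : Fin N → (Fin d → ℝ) → ℂ) (x : Fin d → ℝ) :
    ∑ i, ri u i x ^ 2 = ∑ i, ‖u i x‖ ^ 2 := by
  rw [Fin.sum_univ_add, ← Finset.sum_add_distrib]
  simp only [ri_l, ri_r, hsq]

lemma ri_pd {N d : ℕ} {u : Fin N → (Fin d → ℝ) → ℂ} (hu : ∀ i, ContDiff ℝ 1 (u i)) (k : Fin d)
    (x : Fin d → ℝ) :
    ∑ i, pd k (ri u i) x ^ 2 = ∑ i, ‖fderiv ℝ (u i) x (Pi.single k 1)‖ ^ 2 := by
  rw [Fin.sum_univ_add, ← Finset.sum_add_distrib]
  refine Finset.sum_congr rfl fun i _ => ?_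
  rw [ri_l, ri_r, pd_re (hu i), pd_im (hu i), hsq]

lemma ri_gram {N d : ℕ} {u : Fin N → (Fin d → ℝ) → ℂ} (hu : ∀ i, ContDiff ℝ 1 (u i))
    (hc : ∀ i, HasCompactSupport (u i))
    (ho : ∀ i j, ∫ x, (starRingEnd ℂ) (u i x) * u j x = if i = j then 1 else 0)
    (v : Fin (N + N) → ℝ) : ∫ x, (∑ i, v i * ri u i x) ^ 2 ≤ ∑ i, v i ^ 2 := by
  have h1 := gram_complex u (fun i => (hu i).continuous.memLp_of_hasCompactSupport (hc i)) ho
    (fun i => v (Fin.castAdd N i)) (fun i => v (Fin.natAdd N i))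
  have h2 : ∀ x, ∑ i, v i * ri u i x = ∑ i : Fin N, (v (Fin.castAdd N i) * (u i x).re +
      v (Fin.natAdd N i) * (u i x).im) := by
    intro x
    rw [Fin.sum_univ_add, Finset.sum_add_distrib]
    simp only [ri_l, ri_r]
  have h3 : ∑ i, v i ^ 2 = ∑ i : Fin N, (v (Fin.castAdd N i) ^ 2 + v (Fin.natAdd N i) ^ 2) := by
    rw [Fin.sum_univ_add, Finset.sum_add_distrib]
  simp only [h2]
  rw [h3]
  exact h1

/-- integrability of the squares of the derivatives -/
lemma der_int {d : ℕ} {f : (Fin d → ℝ) → ℂ} (hf : ContDiff ℝ 1 f) (hc : HasCompactSupport f)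
    (k : Fin d) : Integrable (fun x => ‖fderiv ℝ f x (Pi.single k 1)‖ ^ 2) := by
  have h1 : Continuous (fun x => fderiv ℝ f x (Pi.single k 1)) :=
    (hf.continuous_fderiv (by norm_num)).clm_apply continuous_const
  refine (h1.norm.pow 2).integrable_of_hasCompactSupport ?_
  have h2 : HasCompactSupport (fun x => fderiv ℝ f x (Pi.single k 1)) :=
    (hc.fderiv ℝ).comp_left (g := fun L : (Fin d → ℝ) →L[ℝ] ℂ => L (Pi.single k 1)) rfl
  exact h2.comp_left (g := fun z : ℂ => ‖z‖ ^ 2) (by simp)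

lemma energy {N d : ℕ} {u : Fin N → (Fin d → ℝ) → ℂ} (hu : ∀ i, ContDiff ℝ 1 (u i))
    (hc : ∀ i, HasCompactSupport (u i)) :
    ∫ x, ∑ k, ∑ i, pd k (ri u i) x ^ 2 =
      ∑ i, ∑ k, ∫ x, ‖fderiv ℝ (u i) x (Pi.single k 1)‖ ^ 2 := by
  simp only [ri_pd hu]
  rw [integral_finsetSum _ fun k _ => integrable_finsetSum _ fun i _ => der_int (hu i) (hc i) k,
    Finset.sum_comm]
  refine Finset.sum_congr rfl fun k _ => ?_
  rw [integral_finsetSum _ fun i _ => der_int (hu i) (hc i) k]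

end Pool.Agent.N105.LT.Cx
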