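import Pool.Agent.Helper717.LT.Defs

set_option autoImplicit false

open MeasureTheory Set Filter Topology Real
open scoped Matrix

namespace Pool.Agent.N105.LT
open LTd

/-- `w / sinh w`, with the value `1` at `0`. -/
noncomputable def kk (w : ℝ) : ℝ := if w = 0 then 1 else w / sinh w

/-- The inverse hyperbolic tangent. -/
noncomputable def ath (t : ℝ) : ℝ := log ((1 + t) / (1 - t)) / 2

/-- `-2 θ artanh (2 θ s)`. -/
noncomputable def ph (θ s : ℝ) : ℝ := -(2 * θ * ath (2 * θ * s))

/-- Minus the divided difference of `ph θ`. -/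
noncomputable def dd (θ s r : ℝ) : ℝ :=
  4 * θ ^ 2 * (kk (ath (2 * θ * s) - ath (2 * θ * r)) *
    (cosh (ath (2 * θ * s)) * cosh (ath (2 * θ * r))))

/-- The polynomial of a matrix with the coefficients `c`. -/
noncomputable def Pol {n : ℕ} (K : ℕ) (c : ℕ → ℝ) (B : Mat n) : Mat n :=
  ∑ a ∈ Finset.range K, c a • B ^ a

/-- The derivative of the polynomial in the direction `R`. -/
noncomputable def DPol {n : ℕ} (K : ℕ) (c : ℕ → ℝ) (B R : Mat n) : Mat n :=
  ∑ a ∈ Finset.range K, c a • dpow B R a

/-- `f` is an upper bound of the slice Fisher information of the Gram matrix `R` with the mixed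
Gram matrix `S`. -/
def FB {n : ℕ} (R S : Mat n) (f : ℝ) : Prop :=
  ∀ P : Mat n, (∀ i j, P i j = P j i) →
    2 * (S * P * R).trace - (P * R * P * (R * R)).trace ≤ f

/-- The slice Fisher information. -/
noncomputable def Fi {n : ℕ} (R S : Mat n) : ℝ :=
  ⨆ P : {P : Mat n // ∀ i j, P i j = P j i},
    (2 * (S * P.1 * R).trace - (P.1 * R * P.1 * (R * R)).trace)

end Pool.Agent.N105.LT
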