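import Pool.Agent.N105.LT.Asm
import Pool.Agent.N105.LT.Cx

/-! The final theorem for complex systems (helper105). -/

set_option autoImplicit false

open MeasureTheory Set Filter Topology Real
open scoped Matrix

namespace Pool.Agent.N105.LT.Fin
open LTd Pool.Agent.N105.LT Pool.Agent.N105.LT.Cx

lemma trQ {m N : ℕ} {u : Fin N → (Fin (m + 1) → ℝ) → ℂ} (hu : ∀ i, ContDiff ℝ 1 (u i))
    (hc : ∀ i, HasCompactSupport (u i)) (x : ℝ) :
    (QS (ri u) x).trace =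
      ∫ y : Fin m → ℝ, ∑ i, ‖fderiv ℝ (u i) (Fin.cons x y : Fin (m + 1) → ℝ) (Pi.single 0 1)‖ ^ 2 := by
  have h2 : ∀ i, Integrable (fun y : Fin m → ℝ =>
      pd 0 (ri u i) (Fin.cons x y : Fin (m + 1) → ℝ) ^ 2) volume := by
    intro i
    have h3 := slice_cont (f := fun z => pd 0 (ri u i) z ^ 2)
      (((pd_basic (ri_contDiff hu i) (ri_supp hc i) 0).1).pow 2)
      (cs_fam' (ι := Unit) (fun _ => pd 0 (ri u i))
        (fun _ => (pd_basic (ri_contDiff hu i) (ri_supp hc i) 0).2) _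
        fun z hz => by rw [hz ()]; norm_num)
    exact (h3.2.1 x).integrable_of_hasCompactSupport (h3.2.2.1 x)
  have h4 : ∀ y : Fin m → ℝ,
      ∑ i, ‖fderiv ℝ (u i) (Fin.cons x y : Fin (m + 1) → ℝ) (Pi.single 0 1)‖ ^ 2 =
      ∑ i, pd 0 (ri u i) (Fin.cons x y : Fin (m + 1) → ℝ) ^ 2 := fun y => (ri_pd hu 0 _).symm
  simp only [h4]
  rw [integral_finsetSum _ fun i _ => h2 i, Matrix.trace]
  refine Finset.sum_congr rfl fun i _ => ?_
  rw [Matrix.diag_apply]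
  show ∫ y : Fin m → ℝ, pd 0 (ri u i) (Fin.cons x y : Fin (m + 1) → ℝ) *
    pd 0 (ri u i) (Fin.cons x y : Fin (m + 1) → ℝ) = _
  congr 1
  funext y
  ring

theorem part1 (m N : ℕ) (u : Fin N → (Fin (m + 1) → ℝ) → ℂ) (hu : ∀ i, ContDiff ℝ 1 (u i))
    (hc : ∀ i, HasCompactSupport (u i))
    (ho : ∀ i j, ∫ x, (starRingEnd ℂ) (u i x) * u j x = if i = j then 1 else 0) :
    (∀ (x : ℝ) (P : Matrix (Fin (N + N)) (Fin (N + N)) ℝ), (∀ i j, P i j = P j i) →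
      2 * (SS (ri u) x * P * RS (ri u) x).trace -
        (P * RS (ri u) x * P * (RS (ri u) x * RS (ri u) x)).trace ≤
          Fi (RS (ri u) x) (SS (ri u) x)) ∧
    (∀ x, 0 ≤ Fi (RS (ri u) x) (SS (ri u) x)) ∧
    (∀ x, Fi (RS (ri u) x) (SS (ri u) x) ≤
      ∫ y : Fin m → ℝ, ∑ i, ‖fderiv ℝ (u i) (Fin.cons x y : Fin (m + 1) → ℝ) (Pi.single 0 1)‖ ^ 2) ∧
    Integrable (fun x => Fi (RS (ri u) x) (SS (ri u) x)) ∧
    ∀ θ : ℝ, 0 ≤ θ → θ ≤ 1 →
      ((3 + θ) / 4) ^ (1 / ((m : ℝ) + 1)) * Kcl (m + 1) *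
          ∫ x, (∑ i, ‖u i x‖ ^ 2) ^ (1 + 2 / ((m + 1 : ℕ) : ℝ)) ≤
        (∑ i, ∑ k, ∫ x, ‖fderiv ℝ (u i) x (Pi.single k 1)‖ ^ 2) +
          3 * θ * ∫ x, Fi (RS (ri u) x) (SS (ri u) x) := by
  have hS := slice_sys (ri u) (ri_contDiff hu) (ri_supp hc)
  obtain ⟨h1, h2, h3, h4⟩ := Asm.fi_all hS
  refine ⟨fun x P hP => h1 x P hP, h2, fun x => ?_, h4, fun θ t0 t1 => ?_⟩
  · rw [← trQ hu hc x]
    exact h3 x
  · have h := Asm.real_all t0 t1 m (N + N) (ri u) (ri_contDiff hu) (ri_supp hc) (ri_gram hu hc ho)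
    rw [energy hu hc] at h
    simp only [ri_sq] at h
    exact h

theorem part2 (N : ℕ) (u : Fin N → (Fin 1 → ℝ) → ℂ) (hu : ∀ i, ContDiff ℝ 1 (u i))
    (hc : ∀ i, HasCompactSupport (u i)) (x : ℝ) :
    Fi (RS (m := 0) (ri u) x) (SS (m := 0) (ri u) x) =
      (∑ i, ((starRingEnd ℂ) (u i fun _ => x) * fderiv ℝ (u i) (fun _ => x) (Pi.single 0 1)).re) ^ 2 /
        ∑ i, ‖u i fun _ => x‖ ^ 2 := by
  have hx : ∀ y : Fin 0 → ℝ, (Fin.cons x y : Fin 1 → ℝ) = fun _ => x := by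
    intro y
    funext i
    obtain rfl : i = 0 := Fin.ext (by omega)
    rfl
  have hv : (volume (univ : Set (Fin 0 → ℝ))).toReal = 1 := by
    rw [MeasureTheory.volume_pi, Measure.pi_of_empty]
    simp
  have hR : RS (m := 0) (ri u) x =
      (Matrix.of fun i j => ri u i (fun _ => x) * ri u j (fun _ => x) : Mat (N + N)) := by
    ext i j
    simp only [RS, Matrix.of_apply, hx]
    rw [integral_const, Measure.real, hv, one_smul]
  have hSS : SS (m := 0) (ri u) x =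
      (Matrix.of fun i j => pd 0 (ri u i) (fun _ => x) * ri u j (fun _ => x) : Mat (N + N)) := by
    ext i j
    simp only [SS, Matrix.of_apply, hx]
    rw [integral_const, Measure.real, hv, one_smul]
  rw [hR, hSS, Asm.fi1_all, ri_sq]
  congr 2
  rw [Fin.sum_univ_add, ← Finset.sum_add_distrib]
  refine Finset.sum_congr rfl fun i _ => ?_
  simp only [ri_l, ri_r]
  rw [pd_re (hu i), pd_im (hu i)]
  simp

end Pool.Agent.N105.LT.Fin
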