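import Pool.Agent.N105.LT.Defs

/-! Statements of the tasks of project LT (helper105). Never import this file in a proof. -/

set_option autoImplicit false

open MeasureTheory Set Filter Topology Real
open scoped Matrix

namespace Pool.Agent.N105.LT.Stm
open LTd Pool.Agent.N105.LT

/-- LT/I1 -/
theorem i1 (a b : ℝ) : Integrable (fun x : ℝ => (cosh (x - a))⁻¹ * (cosh (x - b))⁻¹) ∧
    ∫ x : ℝ, (cosh (x - a))⁻¹ * (cosh (x - b))⁻¹ = 2 * kk (a - b) := by sorry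

/-- LT/I3 -/
theorem i3 : Integrable (fun x : ℝ => kk x ^ 2) ∧ ∫ x : ℝ, kk x ^ 2 = π ^ 2 / 3 := by sorry

/-- LT/I4 -/
theorem i4 : Integrable (fun x : ℝ => (cosh x)⁻¹ * kk x) ∧
    ∫ x : ℝ, (cosh x)⁻¹ * kk x = π ^ 2 / 4 := by sorry

/-- LT/I2 (from I4 by differentiation in `tanh a`) -/
theorem i2 (h4 : Integrable (fun x : ℝ => (cosh x)⁻¹ * kk x) ∧
      ∫ x : ℝ, (cosh x)⁻¹ * kk x = π ^ 2 / 4) (a : ℝ) :
    Integrable (fun x : ℝ => (cosh (x - a))⁻¹ * kk x) ∧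
    ∫ x : ℝ, (cosh (x - a))⁻¹ * kk x = (a ^ 2 + π ^ 2 / 4) / cosh a := by sorry

/-- LT/KI: the kernel inequality. -/
theorem ki
    (h1 : ∀ a b : ℝ, Integrable (fun x : ℝ => (cosh (x - a))⁻¹ * (cosh (x - b))⁻¹) ∧
      ∫ x : ℝ, (cosh (x - a))⁻¹ * (cosh (x - b))⁻¹ = 2 * kk (a - b))
    (h3 : Integrable (fun x : ℝ => kk x ^ 2) ∧ ∫ x : ℝ, kk x ^ 2 = π ^ 2 / 3)
    (h2 : ∀ a : ℝ, Integrable (fun x : ℝ => (cosh (x - a))⁻¹ * kk x) ∧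
      ∫ x : ℝ, (cosh (x - a))⁻¹ * kk x = (a ^ 2 + π ^ 2 / 4) / cosh a)
    {n : ℕ} (X : Mat n) (hX : PSD X) (a : Fin n → ℝ) :
    4 * ∑ i, a i ^ 2 * (X * X * X) i i + π ^ 2 / 3 * (X * X * X).trace ≤
      4 * ∑ i, ∑ j, kk (a i - a j) * (cosh (a i) * cosh (a j)) * (X i j * (X * X) i j) := by
  sorry

/-- LT/POLY: polynomial approximation of `ph θ` with its divided differences. -/
theorem poly (θ ε : ℝ) (h0 : 0 < θ) (h1 : θ < 1) (hε : 0 < ε) :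
    ∃ (K : ℕ) (c : ℕ → ℝ), ∀ s ∈ Icc (-(1 / 2) : ℝ) (1 / 2), ∀ r ∈ Icc (-(1 / 2) : ℝ) (1 / 2),
      |∑ a ∈ Finset.range K, c a * s ^ a - ph θ s| ≤ ε ∧
      |∑ a ∈ Finset.range K, c a * gs a s r + dd θ s r| ≤ ε := by sorry

/-- LT/ERR: entries of `X` and `X * X` against `tr X³`. -/
theorem err {n : ℕ} (X : Mat n) (hX : PSD X) (i j : Fin n) :
    |X i j * (X * X) i j| ≤ n ^ 3 * (X * X * X).trace ∧ 0 ≤ (X * X * X) i i ∧
      (X * X * X) i i ≤ (X * X * X).trace := by sorry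

/-- LT/DIA: the pointwise inequality in an eigenbasis. -/
theorem dia
    (hki : ∀ {n : ℕ} (X : Mat n), PSD X → ∀ a : Fin n → ℝ,
      4 * ∑ i, a i ^ 2 * (X * X * X) i i + π ^ 2 / 3 * (X * X * X).trace ≤
      4 * ∑ i, ∑ j, kk (a i - a j) * (cosh (a i) * cosh (a j)) * (X i j * (X * X) i j))
    (herr : ∀ {n : ℕ} (X : Mat n), PSD X → ∀ i j : Fin n,
      |X i j * (X * X) i j| ≤ n ^ 3 * (X * X * X).trace ∧ 0 ≤ (X * X * X) i i ∧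
      (X * X * X) i i ≤ (X * X * X).trace)
    (n : ℕ) (θ : ℝ) (h0 : 0 < θ) (h1 : θ < 1) (δ : ℝ) (hδ : 0 < δ) :
    ∃ ε : ℝ, 0 < ε ∧ ∀ (K : ℕ) (c : ℕ → ℝ),
      (∀ s ∈ Icc (-(1 / 2) : ℝ) (1 / 2), ∀ r ∈ Icc (-(1 / 2) : ℝ) (1 / 2),
        |∑ a ∈ Finset.range K, c a * s ^ a - ph θ s| ≤ ε ∧
        |∑ a ∈ Finset.range K, c a * gs a s r + dd θ s r| ≤ ε) →
      ∀ (e : Fin n → ℝ), (∀ i, e i ∈ Icc (-(1 / 2) : ℝ) (1 / 2)) → ∀ X : Mat n, PSD X →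
        ∑ i, ∑ j, (∑ a ∈ Finset.range K, c a * gs a (e i) (e j)) * (X i j * (X * X) i j) +
          ∑ i, (∑ a ∈ Finset.range K, c a * e i ^ a) ^ 2 * (X * X * X) i i +
          (θ ^ 2 * (π ^ 2 / 3) - δ) * (X * X * X).trace ≤ 0 := by sorry

/-- LT/PT: the pointwise inequality for matrices. -/
theorem pt
    (hpoly : ∀ (θ ε : ℝ), 0 < θ → θ < 1 → 0 < ε →
      ∃ (K : ℕ) (c : ℕ → ℝ), ∀ s ∈ Icc (-(1 / 2) : ℝ) (1 / 2),
        ∀ r ∈ Icc (-(1 / 2) : ℝ) (1 / 2),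
      |∑ a ∈ Finset.range K, c a * s ^ a - ph θ s| ≤ ε ∧
      |∑ a ∈ Finset.range K, c a * gs a s r + dd θ s r| ≤ ε)
    (hdia : ∀ (n : ℕ) (θ : ℝ), 0 < θ → θ < 1 → ∀ δ : ℝ, 0 < δ →
      ∃ ε : ℝ, 0 < ε ∧ ∀ (K : ℕ) (c : ℕ → ℝ),
      (∀ s ∈ Icc (-(1 / 2) : ℝ) (1 / 2), ∀ r ∈ Icc (-(1 / 2) : ℝ) (1 / 2),
        |∑ a ∈ Finset.range K, c a * s ^ a - ph θ s| ≤ ε ∧
        |∑ a ∈ Finset.range K, c a * gs a s r + dd θ s r| ≤ ε) →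
      ∀ (e : Fin n → ℝ), (∀ i, e i ∈ Icc (-(1 / 2) : ℝ) (1 / 2)) → ∀ X : Mat n, PSD X →
        ∑ i, ∑ j, (∑ a ∈ Finset.range K, c a * gs a (e i) (e j)) * (X i j * (X * X) i j) +
          ∑ i, (∑ a ∈ Finset.range K, c a * e i ^ a) ^ 2 * (X * X * X) i i +
          (θ ^ 2 * (π ^ 2 / 3) - δ) * (X * X * X).trace ≤ 0)
    (n : ℕ) (θ : ℝ) (h0 : 0 < θ) (h1 : θ < 1) (δ : ℝ) (hδ : 0 < δ) :
    ∃ (K : ℕ) (c : ℕ → ℝ), ∀ (B R : Mat n), (∀ i j, B i j = B j i) →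
      PSD ((1 / 2 : ℝ) • 1 + B) → PSD ((1 / 2 : ℝ) • 1 - B) → PSD R →
      (R * DPol K c B R * R).trace + (Pol K c B * Pol K c B * (R * R * R)).trace +
        (θ ^ 2 * (π ^ 2 / 3) - δ) * (R * R * R).trace ≤ 0 := by sorry

/-- LT/ALG: the algebra with the slice Fisher information. -/
theorem alg {n : ℕ} (R S Q P : Mat n) (hR : ∀ i j, R i j = R j i) (hP : ∀ i j, P i j = P j i)
    (key : ∀ X Y : Mat n,
      0 ≤ (X * Q * Xᵀ).trace - 2 * (X * S * Yᵀ).trace + (Y * R * Yᵀ).trace)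
    (f : ℝ) (hf : FB R S f) :
    2 * (S * (P * R)).trace + 2 * (S * (R * P)).trace ≤
      Q.trace + 3 * f + (P * P * (R * R * R)).trace := by sorry

/-- LT/DER: the derivative of `tr (R P(B) R)`. -/
theorem der {n : ℕ} (K : ℕ) (c : ℕ → ℝ) {B R S : ℝ → Mat n} (x : ℝ)
    (hBs : ∀ i j, B x i j = B x j i) (hRs : ∀ i j, R x i j = R x j i)
    (hB : ∀ x i j, HasDerivAt (fun t => B t i j) (R x i j) x)
    (hR : ∀ x i j, HasDerivAt (fun t => R t i j) (S x i j + S x j i) x) :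
    HasDerivAt (fun t => (R t * Pol K c (B t) * R t).trace)
      (2 * (S x * (Pol K c (B x) * R x)).trace + 2 * (S x * (R x * Pol K c (B x))).trace +
        (R x * DPol K c (B x) (R x) * R x).trace) x := by sorry

/-- LT/MAIN: the matrix inequality in one variable. -/
theorem main
    (hpt : ∀ (n : ℕ) (θ : ℝ), 0 < θ → θ < 1 → ∀ (δ : ℝ), 0 < δ →
      ∃ (K : ℕ) (c : ℕ → ℝ), ∀ (B R : Mat n), (∀ i j, B i j = B j i) →
      PSD ((1 / 2 : ℝ) • 1 + B) → PSD ((1 / 2 : ℝ) • 1 - B) → PSD R →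
      (R * DPol K c B R * R).trace + (Pol K c B * Pol K c B * (R * R * R)).trace +
        (θ ^ 2 * (π ^ 2 / 3) - δ) * (R * R * R).trace ≤ 0)
    (halg : ∀ {n : ℕ} (R S Q P : Mat n), (∀ i j, R i j = R j i) → (∀ i j, P i j = P j i) →
      (∀ X Y : Mat n,
        0 ≤ (X * Q * Xᵀ).trace - 2 * (X * S * Yᵀ).trace + (Y * R * Yᵀ).trace) →
      ∀ (f : ℝ), FB R S f →
      2 * (S * (P * R)).trace + 2 * (S * (R * P)).trace ≤
        Q.trace + 3 * f + (P * P * (R * R * R)).trace)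
    (hder : ∀ {n : ℕ} (K : ℕ) (c : ℕ → ℝ) {B R S : ℝ → Mat n} (x : ℝ),
      (∀ i j, B x i j = B x j i) → (∀ i j, R x i j = R x j i) →
      (∀ x i j, HasDerivAt (fun t => B t i j) (R x i j) x) →
      (∀ x i j, HasDerivAt (fun t => R t i j) (S x i j + S x j i) x) →
      HasDerivAt (fun t => (R t * Pol K c (B t) * R t).trace)
        (2 * (S x * (Pol K c (B x) * R x)).trace + 2 * (S x * (R x * Pol K c (B x))).trace +
          (R x * DPol K c (B x) (R x) * R x).trace) x)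
    {n : ℕ} {R S Q : ℝ → Mat n} (h : Sys R S Q) (hT : PSD (1 - Tot R))
    (f : ℝ → ℝ) (hf : Integrable f) (hF : ∀ x, FB (R x) (S x) (f x)) :
    π ^ 2 / 3 * ∫ x, (R x * R x * R x).trace ≤ (∫ x, (Q x).trace) + 3 * ∫ x, f x := by sorry

/-- LT/FI: the slice Fisher information of a system. -/
theorem fi {n : ℕ} {R S Q : ℝ → Mat n} (h : Sys R S Q) :
    (∀ x, FB (R x) (S x) (Fi (R x) (S x))) ∧ (∀ x, 0 ≤ Fi (R x) (S x)) ∧
    (∀ x, Fi (R x) (S x) ≤ (Q x).trace) ∧ Integrable (fun x => Fi (R x) (S x)) := by sorry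

/-- LT/FI1: rank one Gram matrices (dimension one). -/
theorem fi1 {n : ℕ} (u v : Fin n → ℝ) :
    Fi (Matrix.of fun i j => u i * u j : Mat n) (Matrix.of fun i j => v i * u j : Mat n) =
      (∑ i, u i * v i) ^ 2 / ∑ i, u i ^ 2 := by sorry

/-- LT/CST: the constant. -/
theorem cst (m : ℕ) : bco (m / 2) (3 / 2) (π ^ 2 / 3) = Kcl (m + 1) := by sorry

/-- LT/CORE: the inequality in dimension `m + 1` for real functions. -/
theorem core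
    (hmain : ∀ {n : ℕ} {R S Q : ℝ → Mat n}, Sys R S Q → PSD (1 - Tot R) →
      ∀ (f : ℝ → ℝ), Integrable f → (∀ x, FB (R x) (S x) (f x)) →
      π ^ 2 / 3 * ∫ x, (R x * R x * R x).trace ≤ (∫ x, (Q x).trace) + 3 * ∫ x, f x)
    (m n : ℕ) (w : Fin n → (Fin (m + 1) → ℝ) → ℝ) (hw : ∀ i, ContDiff ℝ 1 (w i))
    (hc : ∀ i, HasCompactSupport (w i))
    (hG : ∀ v : Fin n → ℝ, ∫ x, (∑ i, v i * w i x) ^ 2 ≤ ∑ i, v i ^ 2)
    (f : ℝ → ℝ) (hf : Integrable f) (hF : ∀ x, FB (RS w x) (SS w x) (f x)) :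
    bco (m / 2) (3 / 2) (π ^ 2 / 3) * ∫ x, (∑ i, w i x ^ 2) ^ pp (3 / 2 + m / 2) ≤
      (∫ x, ∑ k, ∑ i, pd k (w i) x ^ 2) + 3 * ∫ x, f x := by sorry

end Pool.Agent.N105.LT.Stm
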